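import Pool.Agent.Work.MP_3154ac_lc.All3

namespace Pool.Agent.Results.MP_3154ac_lc.CliqueSearchTime

open Pool.Agent.Work.MP_3154ac_lc

/-- **Time lower bounds for the approximate search problem for cliques imply PIH.** Let `q` be
computable with `q 0 = 0` and `q k < k` for `k > 0`. If no algorithm with running time
`f(k) n^{O(k / (k - q)^{1/3})}` finds in every graph with a clique on `k` vertices a clique with at
least `q(k)` vertices, then the Parameterized Inapproximability Hypothesis holds. For `q = k / C`
the exponent is `O(k^{2/3})`; for `q = k - h(k)` it is `o(k)` for every `h → ∞`. The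
definitions are in `Pool/Agent/Work/MP_3154ac_lc/Defs.lean` and `Defs2.lean`. -/
theorem result (q : ℕ → ℕ) (hq : Computable q) (hqk : ∀ k, q k ≤ k - 1)
    (h : ¬ SearchInTime (fun k => k / cbrt (k - q k)) q) : PIH := by
  by_contra hPIH
  exact h (main3 hPIH q hq hqk)

end Pool.Agent.Results.MP_3154ac_lc.CliqueSearchTime
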