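import Pool.Agent.Work.MP_3154ac_lc.All2

namespace Pool.Agent.Results.MP_3154ac_lc.GapCliqueTime

open Pool.Agent.Work.MP_3154ac_lc

/-- **Time lower bounds for gap clique problems imply PIH.** Let `q` be computable with `q 0 = 0`
and `q k < k` for `k > 0`. If no algorithm with running time `f(k) n^{O(√(q k / (k - q)))}`
distinguishes the graphs with a clique on `k` vertices from the graphs without a clique on `q(k)`
vertices, then the Parameterized Inapproximability Hypothesis holds. For `q = k / C` the exponent
is `O(√k)`; for `q = k - h(k)` it is `O(k / √h(k))`, which is `o(k)` for every `h → ∞`. The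
definitions are in `Pool/Agent/Work/MP_3154ac_lc/Defs.lean`. -/
theorem result (q : ℕ → ℕ) (hq : Computable q) (hqk : ∀ k, q k ≤ k - 1)
    (h : ¬ InTime (fun k => Nat.sqrt (q k * k / (k - q k))) (fun G k => HasClique G k)
      (fun G k => ¬ HasClique G (q k))) : PIH := by
  by_contra hPIH
  exact h (main2 hPIH q hq hqk)

end Pool.Agent.Results.MP_3154ac_lc.GapCliqueTime
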