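import Pool.Agent.Work.MP_3154ac_lc.LR.Main

namespace Pool.Agent.Results.MP_3154ac_lc.LocalReductions

open Pool.Agent.Work.MP_3154ac_lc.LR

/-- **Local reductions from gap Clique to gap MDkS are large.** Let `1 ≤ q < k ≤ n` and let `R` be a
randomised reduction which maps the graphs with `n` vertices to MDkS instances with vertex set `W`,
such that (with probability at least `2/3`) a clique with `k` vertices gives `OPT = C(m, 2)` and the
absence of a clique with `q + 1` vertices gives `OPT < C(m, 2) / (1 + e)`. If every single adjacency
of the produced graph is found with (adaptive) queries to the input graph in which at most `t`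
vertices occur, then `C(n, s) ≤ 6 |W|² C(k, s) C(t, s)` for every `s` with
`12 (1 + e) s² (k - q) ≤ e q k`, that is for some `s` of the order `√(q k / (k - q))`. In particular
`|W| ≥ (n / (k t)) ^ (s / 2) / 3`, and there is no such reduction at all if `t < s`. The definitions
are in `Pool/Agent/Work/MP_3154ac_lc/LR/Defs.lean`. -/
theorem result (n k q m t s : ℕ) (e : ℝ) (Ω W : Type) [Finite Ω] [Nonempty Ω] [Finite W]
    (hq : 1 ≤ q) (hqk : q < k) (hkn : k ≤ n) (he : 0 < e)
    (hs : 12 * (1 + e) * (s : ℝ) ^ 2 * ((k : ℝ) - q) ≤ e * q * k)
    (R : Reduction n k (q + 1) m t e Ω W) :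
    n.choose s ≤ 6 * Nat.card W ^ 2 * (k.choose s * t.choose s) :=
  main R hq hqk hkn he hs

end Pool.Agent.Results.MP_3154ac_lc.LocalReductions
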