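import Pool.Agent.Work.MP_3154ac_lc.E.All

namespace Pool.Agent.Results.MP_3154ac_lc.SubexponentialPIH

open Pool.Agent.Work.MP_3154ac_lc Pool.Agent.Work.MP_3154ac_lc.E

/-- **The Parameterized Inapproximability Hypothesis for subexponential dependence on the
parameter.** Suppose that no algorithm with running time `2 ^ (k ^ c) n ^ O(1)`, `c` constant, finds
in every graph with a clique on `k` vertices such a clique (this is implied by Hypothesis C, see
`of_hypC` below). Then for every `δ = a / (a + 1) < 1` no algorithm with running time
`2 ^ O(k ^ δ) |I| ^ O(1)` accepts every MDkS instance with `OPT = C(k, 2)` and rejects every MDkS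
instance with `OPT < C(k, 2) / (1 + 1 / 288)`. The definitions are in
`Pool/Agent/Work/MP_3154ac_lc/Defs.lean`, `Defs2.lean` and `E/Defs.lean`. -/
theorem result (h : ¬ CliqueTime) (a : ℕ) : ¬ GapTime a Full (Small (1 / 288)) :=
  main.2 h a

/-- The conclusion of `result` follows from Hypothesis C. -/
theorem of_hypC (h : HypC) (a : ℕ) : ¬ GapTime a Full (Small (1 / 288)) :=
  result (main.1 h) a

end Pool.Agent.Results.MP_3154ac_lc.SubexponentialPIH
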